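import Mathlib
import Pool.Agent.X185.CA.Stm

/-!
# MP_72ebf0_an: LR-separated cellular automata with at most one inner variable

Partial answer to Q1: the claim holds whenever the map `π` of the local rule depends on at most
one of its variables (at any place between the leftmost and the rightmost position); in particular
for all rules whose leftmost and rightmost positions are at distance at most `2`.
`globalMap ρ f` is the cellular automaton of radius `ρ` with local rule `f`.
-/

set_option autoImplicit false

namespace Pool.Agent.Results.MP_72ebf0_an.ThreeTerms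

open Pool.Agent.X185.CA

theorem result (p : ℕ) [Fact p.Prime] (ρ : ℕ) (f : (Fin (2 * ρ + 1) → ZMod p) → ZMod p)
    (l m r : Fin (2 * ρ + 1)) (hlm : l < m) (hmr : m < r) (al ar : ZMod p) (hal : al ≠ 0)
    (har : ar ≠ 0) (ql qr : ℕ) (hql : 1 ≤ ql) (hqr : 1 ≤ qr) (π : ZMod p → ZMod p)
    (hf : ∀ x, f x = π (x m) + al * x l ^ ql + ar * x r ^ qr)
    (hsurj : Function.Surjective (globalMap ρ f)) :
    ql.Coprime (p - 1) ∨ qr.Coprime (p - 1) :=
  main p ρ f l m r hlm hmr al ar hal har ql qr hql hqr π hf hsurj

end Pool.Agent.Results.MP_72ebf0_an.ThreeTerms
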